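import Mathlib

set_option autoImplicit false

open Finset

namespace Pool.Agent.N245.WP

/-- `x` and `y` weakly have the same phase. -/
def WeakSamePhase {n : ℕ} (x y : EuclideanSpace ℝ (Fin n)) : Prop :=
  ∃ θ : ℝ, (θ = 1 ∨ θ = -1) ∧ ∀ k, x k * y k ≠ 0 → Real.sign (x k) = θ * Real.sign (y k)

/-- The family `F` does weak phase retrieval. -/
def WeakPhaseRetrieval {n m : ℕ} (F : Fin m → EuclideanSpace ℝ (Fin n)) : Prop :=
  ∀ x y : EuclideanSpace ℝ (Fin n), (∀ i, |inner ℝ x (F i)| = |inner ℝ y (F i)|) →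
    WeakSamePhase x y

/-- Frames. -/
def IsFrame {n m : ℕ} (F : Fin m → EuclideanSpace ℝ (Fin n)) : Prop :=
  ∃ A B : ℝ, 0 < A ∧ A ≤ B ∧ ∀ x : EuclideanSpace ℝ (Fin n),
    A * ‖x‖ ^ 2 ≤ ∑ i, |inner ℝ x (F i)| ^ 2 ∧ ∑ i, |inner ℝ x (F i)| ^ 2 ≤ B * ‖x‖ ^ 2

/-- The generalized cross product of `p` vectors with `p + 1` entries. -/
noncomputable def cr {R : Type*} [CommRing R] {p : ℕ} (v : Fin p → Fin (p + 1) → R)
    (k : Fin (p + 1)) : R :=
  (-1) ^ (k : ℕ) * ((Matrix.of v : Matrix (Fin p) (Fin (p + 1)) R).submatrix id k.succAbove).det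

lemma cr_dot {R : Type*} [CommRing R] {p : ℕ} (v : Fin p → Fin (p + 1) → R)
    (w : Fin (p + 1) → R) :
    ∑ k, cr v k * w k = (Matrix.of (Fin.cons w v : Fin (p + 1) → Fin (p + 1) → R)).det := by
  rw [Matrix.det_succ_row_zero]
  apply Finset.sum_congr rfl
  intro k _
  unfold cr
  have : ((Matrix.of (Fin.cons w v : Fin (p + 1) → Fin (p + 1) → R)).submatrix Fin.succ
      k.succAbove) = ((Matrix.of v : Matrix (Fin p) (Fin (p + 1)) R).submatrix id k.succAbove) := by
    ext i j
    simp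
  rw [this]
  simp only [Matrix.of_apply, Fin.cons_zero]
  ring

lemma cr_orth {R : Type*} [CommRing R] {p : ℕ} (v : Fin p → Fin (p + 1) → R) (i : Fin p) :
    ∑ k, cr v k * v i k = 0 := by
  rw [cr_dot]
  exact Matrix.det_zero_of_row_eq (i := 0) (j := i.succ) (Fin.succ_ne_zero i).symm rfl

lemma cr_map {R S : Type*} [CommRing R] [CommRing S] (f : R →+* S) {p : ℕ}
    (v : Fin p → Fin (p + 1) → R) (k : Fin (p + 1)) :
    f (cr v k) = cr (fun i j => f (v i j)) k := by
  unfold cr
  rw [map_mul, map_pow, map_neg, map_one, RingHom.map_det]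
  rfl

lemma continuous_cr {p : ℕ} (k : Fin (p + 1)) :
    Continuous fun v : Fin p → Fin (p + 1) → ℝ => cr v k := by
  unfold cr
  refine continuous_const.mul (Continuous.matrix_det ?_)
  refine continuous_pi fun i => continuous_pi fun j => ?_
  simp only [Matrix.submatrix_apply, Matrix.of_apply, id]
  exact (continuous_apply _).comp (continuous_apply _)

/-- The obstruction. -/
noncomputable def Pt {R : Type*} [CommRing R] {p : ℕ} (v : Fin (p + p) → Fin (p + 1) → R)
    (k l : Fin (p + 1)) : R :=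
  cr (fun i => v (Fin.castAdd p i)) k ^ 2 * cr (fun i => v (Fin.natAdd p i)) l ^ 2 -
    cr (fun i => v (Fin.castAdd p i)) l ^ 2 * cr (fun i => v (Fin.natAdd p i)) k ^ 2

lemma sign_mul_of_eq {a b θ : ℝ} (h : Real.sign a = θ * Real.sign b) (hab : a * b ≠ 0) :
    Real.sign (a * b) = θ := by
  have ha : a ≠ 0 := left_ne_zero_of_mul hab
  have hb : b ≠ 0 := right_ne_zero_of_mul hab
  have h1 : Real.sign (a * b) = Real.sign a * Real.sign b := by
    rcases lt_or_gt_of_ne ha with h1 | h1 <;> rcases lt_or_gt_of_ne hb with h2 | h2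
    · rw [Real.sign_of_neg h1, Real.sign_of_neg h2, Real.sign_of_pos (mul_pos_of_neg_of_neg h1 h2)]
      norm_num
    · rw [Real.sign_of_neg h1, Real.sign_of_pos h2, Real.sign_of_neg (mul_neg_of_neg_of_pos h1 h2)]
      norm_num
    · rw [Real.sign_of_pos h1, Real.sign_of_neg h2, Real.sign_of_neg (mul_neg_of_pos_of_neg h1 h2)]
      norm_num
    · rw [Real.sign_of_pos h1, Real.sign_of_pos h2, Real.sign_of_pos (mul_pos h1 h2)]
      norm_num
  rw [h1, h]
  have h2 : Real.sign b * Real.sign b = 1 := by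
    rcases lt_or_gt_of_ne hb with h2 | h2
    · rw [Real.sign_of_neg h2]; norm_num
    · rw [Real.sign_of_pos h2]; norm_num
  rw [mul_assoc, h2, mul_one]

/-- Weak phase retrieval forces the obstruction to vanish. -/
theorem Pt_eq_zero {p : ℕ} (F : Fin (p + p) → EuclideanSpace ℝ (Fin (p + 1)))
    (hF : WeakPhaseRetrieval F) (k l : Fin (p + 1)) : Pt (fun i j => F i j) k l = 0 := by
  by_contra hne
  set x : Fin (p + 1) → ℝ := cr (fun i j => F (Fin.castAdd p i) j) with hx
  set y : Fin (p + 1) → ℝ := cr (fun i j => F (Fin.natAdd p i) j) with hy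
  have hP : Pt (fun i j => F i j) k l = x k ^ 2 * y l ^ 2 - x l ^ 2 * y k ^ 2 := rfl
  rw [hP] at hne
  set a : ℝ := Real.sqrt (y k ^ 2 + y l ^ 2) with ha
  set b : ℝ := Real.sqrt (x k ^ 2 + x l ^ 2) with hb
  have ha2 : a ^ 2 = y k ^ 2 + y l ^ 2 := Real.sq_sqrt (by positivity)
  have hb2 : b ^ 2 = x k ^ 2 + x l ^ 2 := Real.sq_sqrt (by positivity)
  set u : EuclideanSpace ℝ (Fin (p + 1)) := WithLp.toLp 2 fun j => a * x j + b * y j with hu
  set w : EuclideanSpace ℝ (Fin (p + 1)) := WithLp.toLp 2 fun j => a * x j - b * y j with hw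
  have hin : ∀ (z : Fin (p + 1) → ℝ) (v : EuclideanSpace ℝ (Fin (p + 1))),
      inner ℝ (WithLp.toLp 2 z : EuclideanSpace ℝ (Fin (p + 1))) v = ∑ j, z j * v j := by
    intro z v
    rw [PiLp.inner_apply]
    apply Finset.sum_congr rfl
    intro j _
    simp [mul_comm]
  have h1 : ∀ i, |inner ℝ u (F i)| = |inner ℝ w (F i)| := by
    intro i
    rw [hu, hw, hin, hin]
    have e1 : ∑ j, (a * x j + b * y j) * F i j = a * (∑ j, x j * F i j) + b * ∑ j, y j * F i j := by
      rw [Finset.mul_sum, Finset.mul_sum, ← Finset.sum_add_distrib]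
      apply Finset.sum_congr rfl
      intro j _
      ring
    have e2 : ∑ j, (a * x j - b * y j) * F i j = a * (∑ j, x j * F i j) - b * ∑ j, y j * F i j := by
      rw [Finset.mul_sum, Finset.mul_sum, ← Finset.sum_sub_distrib]
      apply Finset.sum_congr rfl
      intro j _
      ring
    rw [e1, e2]
    refine Fin.addCases (fun i => ?_) (fun i => ?_) i
    · have : ∑ j, x j * F (Fin.castAdd p i) j = 0 :=
        cr_orth (fun i j => F (Fin.castAdd p i) j) i
      rw [this, mul_zero, zero_add, zero_sub, abs_neg]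
    · have : ∑ j, y j * F (Fin.natAdd p i) j = 0 :=
        cr_orth (fun i j => F (Fin.natAdd p i) j) i
      rw [this, mul_zero, add_zero, sub_zero]
  obtain ⟨θ, hθ, hs⟩ := hF u w h1
  have hk : u k * w k = x k ^ 2 * y l ^ 2 - x l ^ 2 * y k ^ 2 := by
    show (a * x k + b * y k) * (a * x k - b * y k) = _
    have : (a * x k + b * y k) * (a * x k - b * y k) = a ^ 2 * x k ^ 2 - b ^ 2 * y k ^ 2 := by ring
    rw [this, ha2, hb2]
    ring
  have hl : u l * w l = -(x k ^ 2 * y l ^ 2 - x l ^ 2 * y k ^ 2) := by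
    show (a * x l + b * y l) * (a * x l - b * y l) = _
    have : (a * x l + b * y l) * (a * x l - b * y l) = a ^ 2 * x l ^ 2 - b ^ 2 * y l ^ 2 := by ring
    rw [this, ha2, hb2]
    ring
  have hk0 : u k * w k ≠ 0 := by rw [hk]; exact hne
  have hl0 : u l * w l ≠ 0 := by rw [hl]; exact neg_ne_zero.2 hne
  have s1 := sign_mul_of_eq (hs k hk0) hk0
  have s2 := sign_mul_of_eq (hs l hl0) hl0
  rw [hk] at s1
  rw [hl, Real.sign_neg, s1] at s2
  rcases hθ with h | h <;> rw [h] at s2 <;> norm_num at s2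

/-- The special frame. -/
noncomputable def Fs (p : ℕ) : Fin (p + 1 + (p + 1)) → EuclideanSpace ℝ (Fin (p + 1 + 1)) :=
  Fin.append (fun i => EuclideanSpace.single i.succ 1)
    (fun i => EuclideanSpace.single ((1 : Fin (p + 1 + 1)).succAbove i) 1)

lemma cr_single {p : ℕ} (k : Fin (p + 1)) (l : Fin (p + 1)) :
    cr (fun (i : Fin p) (j : Fin (p + 1)) =>
      (EuclideanSpace.single (k.succAbove i) (1 : ℝ) : EuclideanSpace ℝ (Fin (p + 1))) j) l =
      if l = k then (-1) ^ (k : ℕ) else 0 := by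
  split_ifs with h
  · subst h
    unfold cr
    have : (Matrix.of (fun (i : Fin p) (j : Fin (p + 1)) =>
      (EuclideanSpace.single (l.succAbove i) (1 : ℝ) : EuclideanSpace ℝ (Fin (p + 1))) j) :
      Matrix (Fin p) (Fin (p + 1)) ℝ).submatrix id l.succAbove = 1 := by
      ext i j
      simp only [Matrix.submatrix_apply, Matrix.of_apply, id, EuclideanSpace.single_apply,
        Matrix.one_apply, Fin.succAbove_right_inj]
      by_cases hij : i = j
      · simp [hij]
      · rw [if_neg hij, if_neg (fun h => hij h.symm)]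
    rw [this, Matrix.det_one, mul_one]
  · obtain ⟨i, rfl⟩ := Fin.exists_succAbove_eq h
    have := cr_orth (fun (i : Fin p) (j : Fin (p + 1)) =>
      (EuclideanSpace.single (k.succAbove i) (1 : ℝ) : EuclideanSpace ℝ (Fin (p + 1))) j) i
    simp only [EuclideanSpace.single_apply, mul_ite, mul_one, mul_zero, Finset.sum_ite_eq',
      Finset.mem_univ, if_true] at this
    simpa [EuclideanSpace.single_apply] using this

lemma Pt_Fs (p : ℕ) : Pt (fun i j => Fs p i j) 0 1 ≠ 0 := by
  have h1 : (fun (i : Fin (p + 1)) (j : Fin (p + 1 + 1)) => Fs p (Fin.castAdd (p + 1) i) j) =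
      fun i j => (EuclideanSpace.single ((0 : Fin (p + 1 + 1)).succAbove i) (1 : ℝ) :
        EuclideanSpace ℝ (Fin (p + 1 + 1))) j := by
    funext i j
    rw [Fs, Fin.append_left, Fin.zero_succAbove]
  have h2 : (fun (i : Fin (p + 1)) (j : Fin (p + 1 + 1)) => Fs p (Fin.natAdd (p + 1) i) j) =
      fun i j => (EuclideanSpace.single ((1 : Fin (p + 1 + 1)).succAbove i) (1 : ℝ) :
        EuclideanSpace ℝ (Fin (p + 1 + 1))) j := by
    funext i j
    rw [Fs, Fin.append_right]
  unfold Pt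
  rw [h1, h2, cr_single, cr_single, cr_single, cr_single]
  simp

lemma isFrame_Fs (p : ℕ) : IsFrame (Fs p) := by
  refine ⟨1, 2, one_pos, one_le_two, fun x => ?_⟩
  have h : ∑ i, |inner ℝ x (Fs p i)| ^ 2 = ∑ i : Fin (p + 1), x i.succ ^ 2 +
      ∑ i : Fin (p + 1), x ((1 : Fin (p + 1 + 1)).succAbove i) ^ 2 := by
    rw [Fin.sum_univ_add]
    congr 1
    · apply Finset.sum_congr rfl
      intro i _
      rw [Fs, Fin.append_left, EuclideanSpace.inner_single_right, sq_abs]
      simp
    · apply Finset.sum_congr rfl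
      intro i _
      rw [Fs, Fin.append_right, EuclideanSpace.inner_single_right, sq_abs]
      simp
  have hn : ‖x‖ ^ 2 = ∑ i, x i ^ 2 := by
    rw [EuclideanSpace.norm_sq_eq]
    simp
  have h0 : ∑ i, x i ^ 2 = x 0 ^ 2 + ∑ i : Fin (p + 1), x i.succ ^ 2 := Fin.sum_univ_succ _
  have h1 : ∑ i, x i ^ 2 = x 1 ^ 2 +
      ∑ i : Fin (p + 1), x ((1 : Fin (p + 1 + 1)).succAbove i) ^ 2 := Fin.sum_univ_succAbove _ 1
  have h2 : x 0 ^ 2 ≤ ∑ i : Fin (p + 1), x ((1 : Fin (p + 1 + 1)).succAbove i) ^ 2 := by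
    have := Finset.single_le_sum (f := fun i : Fin (p + 1) =>
      x ((1 : Fin (p + 1 + 1)).succAbove i) ^ 2) (fun i _ => sq_nonneg _) (Finset.mem_univ 0)
    simpa using this
  rw [h, hn]
  constructor
  · linarith
  · nlinarith [sq_nonneg (x 0), sq_nonneg (x 1)]

/-- Coordinates. -/
lemma continuous_Pt {p : ℕ} (k l : Fin (p + 1)) :
    Continuous fun F : Fin (p + p) → EuclideanSpace ℝ (Fin (p + 1)) =>
      Pt (fun i j => F i j) k l := by
  have hc : ∀ (g : Fin p → Fin (p + p)) (k : Fin (p + 1)),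
      Continuous fun F : Fin (p + p) → EuclideanSpace ℝ (Fin (p + 1)) =>
        cr (fun i j => F (g i) j) k := by
    intro g k
    refine (continuous_cr k).comp ?_
    refine continuous_pi fun i => continuous_pi fun j => ?_
    exact (EuclideanSpace.proj j).continuous.comp (continuous_apply (g i))
  unfold Pt
  exact (((hc _ k).pow 2).mul ((hc _ l).pow 2)).sub (((hc _ l).pow 2).mul ((hc _ k).pow 2))

/-- The obstruction is not identically zero on any nonempty open set. -/
theorem dense_Pt (p : ℕ) (F : Fin (p + 1 + (p + 1)) → EuclideanSpace ℝ (Fin (p + 1 + 1)))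
    (U : Set (Fin (p + 1 + (p + 1)) → EuclideanSpace ℝ (Fin (p + 1 + 1)))) (hU : IsOpen U)
    (hFU : F ∈ U) : ∃ G ∈ U, Pt (fun i j => G i j) 0 1 ≠ 0 := by
  classical
  by_contra hcon
  push Not at hcon
  -- the segment from `F` to the special frame
  let L : ℝ → (Fin (p + 1 + (p + 1)) → EuclideanSpace ℝ (Fin (p + 1 + 1))) :=
    fun t => F + t • (Fs p - F)
  have hL : Continuous L := by
    exact continuous_const.add (continuous_id.smul continuous_const)
  let V : Fin (p + 1 + (p + 1)) → Fin (p + 1 + 1) → Polynomial ℝ :=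
    fun i j => Polynomial.C (F i j) + Polynomial.X * Polynomial.C (Fs p i j - F i j)
  have hV : ∀ t, (Pt V 0 1).eval t = Pt (fun i j => L t i j) 0 1 := by
    intro t
    have hev : ∀ i j, (V i j).eval t = L t i j := by
      intro i j
      simp [V, L]
    unfold Pt
    rw [Polynomial.eval_sub, Polynomial.eval_mul, Polynomial.eval_mul, Polynomial.eval_pow,
      Polynomial.eval_pow, Polynomial.eval_pow, Polynomial.eval_pow]
    have hc : ∀ (g : Fin (p + 1) → Fin (p + 1 + (p + 1))) (k : Fin (p + 1 + 1)),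
        (cr (fun i => V (g i)) k).eval t = cr (fun i j => L t (g i) j) k := by
      intro g k
      have := cr_map (Polynomial.evalRingHom t) (fun i => V (g i)) k
      rw [Polynomial.coe_evalRingHom] at this
      rw [this]
      congr 1
      funext i j
      exact hev (g i) j
    rw [hc, hc, hc, hc]
  have hopen : IsOpen (L ⁻¹' U) := hU.preimage hL
  have h0 : (0 : ℝ) ∈ L ⁻¹' U := by
    show L 0 ∈ U
    have : L 0 = F := by simp [L]
    rw [this]
    exact hFU
  obtain ⟨ε, hε, hball⟩ := Metric.isOpen_iff.1 hopen 0 h0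
  have hzero : Pt V 0 1 = 0 := by
    apply Polynomial.eq_zero_of_infinite_isRoot
    apply Set.Infinite.mono (s := Set.Ioo (-ε) ε)
    · intro t ht
      show (Pt V 0 1).eval t = 0
      rw [hV]
      apply hcon
      apply hball
      rw [Metric.mem_ball, dist_zero_right, Real.norm_eq_abs, abs_lt]
      exact ht
    · exact Set.Ioo_infinite (by linarith)
  have h1 := hV 1
  rw [hzero, Polynomial.eval_zero] at h1
  have h2 : L 1 = Fs p := by simp [L]
  rw [h2] at h1
  exact Pt_Fs p h1.symm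

/-- The main statement for `n = p + 2`. -/
theorem main (p : ℕ) :
    ¬ ({F : Fin (p + 1 + (p + 1)) → EuclideanSpace ℝ (Fin (p + 1 + 1)) | IsFrame F} ⊆
      closure {F | IsFrame F ∧ WeakPhaseRetrieval F}) ∧
    interior (closure {F : Fin (p + 1 + (p + 1)) → EuclideanSpace ℝ (Fin (p + 1 + 1)) |
      IsFrame F ∧ WeakPhaseRetrieval F}) = ∅ := by
  have hsub : closure {F : Fin (p + 1 + (p + 1)) → EuclideanSpace ℝ (Fin (p + 1 + 1)) |
      IsFrame F ∧ WeakPhaseRetrieval F} ⊆ {F | Pt (fun i j => F i j) 0 1 = 0} := by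
    apply closure_minimal
    · intro F hF
      exact Pt_eq_zero F hF.2 0 1
    · exact isClosed_eq (continuous_Pt 0 1) continuous_const
  constructor
  · intro h
    exact Pt_Fs p (hsub (h (isFrame_Fs p)))
  · rw [Set.eq_empty_iff_forall_notMem]
    intro F hF
    obtain ⟨G, hG, hG0⟩ := dense_Pt p F _ isOpen_interior hF
    exact hG0 (hsub (interior_subset hG))

end Pool.Agent.N245.WP
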